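import Pool.Agent.Helper22.OR.Law
import Pool.Agent.Helper32.OR.Fin1

/-!
Sentences with up to five blocks of quantifiers in random one-relator groups (MP_d4e3d0_lc).
-/

set_option autoImplicit false

namespace Pool.Agent.Helper22.Kept.FiveBlocks

open FirstOrder Filter Topology
open Pool.Agent.Helper32.OR (grpLang AAS prob OneRel AEA EAE)
open Pool.Agent.Helper22.OR (Chain ElemChain EAEAE AEAE)

theorem five_uniform (n : ℕ) : AAS n (fun r => ∀ k a b c d : ℕ, k + b + 2 ≤ n → 2 ≤ k + b →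
    ∀ ψ : grpLang.BoundedFormula Empty (0 + a + b + c + 1 + d), ψ.IsQF → Chain k a b c d ψ →
      OneRel r ⊨ EAEAE a b c d ψ) := by
  by_cases hn : 2 ≤ n
  · refine Pool.Agent.Helper32.OR.aas_mono (Pool.Agent.Helper32.OR.aas_good n (100 * n + 100) hn) ?_
    rintro r ⟨w, hw, s, l0, hg, hN⟩ k a b c d h1 h2 ψ hψ hF
    exact Pool.Agent.Helper22.OR.sat_congr _ hN.symm
      (Pool.Agent.Helper22.OR.five_goodRel k a b c d h1 h2 le_rfl hg ψ hψ hF)
  · unfold AAS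
    have h1 : ∀ t : ℕ, {r : FreeGroup (Fin n) | r.norm ≤ t ∧ ∀ k a b c d : ℕ, k + b + 2 ≤ n →
        2 ≤ k + b → ∀ ψ : grpLang.BoundedFormula Empty (0 + a + b + c + 1 + d), ψ.IsQF →
          Chain k a b c d ψ → OneRel r ⊨ EAEAE a b c d ψ} =
        {r : FreeGroup (Fin n) | r.norm ≤ t} := by
      intro t
      ext r
      constructor
      · exact fun h => h.1
      · exact fun h => ⟨h, fun k a b c d h1 _ => absurd h1 (by omega)⟩
    simp only [h1]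
    refine tendsto_const_nhds.congr fun t => ?_
    rw [div_self]
    exact_mod_cast (Pool.Agent.Helper32.OR.ball_pos n t).ne'

theorem aea_uniform (n : ℕ) (hn : 4 ≤ n) : AAS n (fun r => ∀ a b : ℕ, a + 2 ≤ n →
    ∀ ψ : grpLang.BoundedFormula Empty (0 + a + b + 1), ψ.IsQF →
      (∀ j : ℕ, 2 ≤ j → FreeGroup (Fin j) ⊨ AEA a b ψ) → OneRel r ⊨ AEA a b ψ) := by
  refine Pool.Agent.Helper32.OR.aas_mono (Pool.Agent.Helper32.OR.aas_hyp n (by omega)) ?_
  rintro r ⟨L, e, s, b', RR, h⟩ a b hna ψ hψ hF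
  exact Pool.Agent.Helper32.OR.AEA_of_closed1 a b (Pool.Agent.Helper22.OR.closed1 h hn a hna)
    ψ hψ hF

theorem eae_large (a b m : ℕ) (ψ : grpLang.BoundedFormula Empty (0 + a + b + m)) (hψ : ψ.IsQF)
    (hF : FreeGroup ℕ ⊨ EAE a b m ψ) : ∃ N : ℕ, ∀ n, N ≤ n →
      AAS n (fun r => OneRel r ⊨ EAE a b m ψ) := by
  obtain ⟨s, hs, h⟩ := Pool.Agent.Helper32.OR.EAE_of_part a b m ψ hψ hF
  refine ⟨s + b + 1, fun n hn => ?_⟩
  refine Pool.Agent.Helper32.OR.aas_mono (Pool.Agent.Helper32.OR.aas_hyp n (by omega)) ?_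
  rintro r ⟨L, e, s', b', RR, hy⟩
  exact h _ _ (Pool.Agent.Helper22.OR.part hy s b hn)

/-- (1) A.a.s. the group satisfies all five block sentences that hold along the chain
`F_k ≤ F_{k+b} ≤ F_{k+b+1}`.
(2), (3), (4) If the standard embeddings `F_k → F_{k+1}`, `k ≥ 2`, are elementary: a.a.s. the group
satisfies all five block sentences with `b + 4 ≤ n` that hold in `F_2`, and it satisfies the same
sentences `∀ x₁ … x_a ∃ y₁ … y_b ∀ u ∃ v, ψ`, `2 ≤ a ≤ n - 2`, `b ≤ n - 4`, as `F_2`.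
(5), (6) Three blocks without this assumption. -/
theorem result :
    (∀ n : ℕ, AAS n (fun r => ∀ k a b c d : ℕ, k + b + 2 ≤ n → 2 ≤ k + b →
      ∀ ψ : grpLang.BoundedFormula Empty (0 + a + b + c + 1 + d), ψ.IsQF → Chain k a b c d ψ →
        OneRel r ⊨ EAEAE a b c d ψ)) ∧
    (ElemChain → ∀ n : ℕ, AAS n (fun r => ∀ a b c d : ℕ, b + 4 ≤ n →
      ∀ ψ : grpLang.BoundedFormula Empty (0 + a + b + c + 1 + d), ψ.IsQF →
        FreeGroup (Fin 2) ⊨ EAEAE a b c d ψ → OneRel r ⊨ EAEAE a b c d ψ)) ∧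
    (ElemChain → ∀ n : ℕ, AAS n (fun r => ∀ a b : ℕ, 2 ≤ a → a + 2 ≤ n → b + 4 ≤ n →
      ∀ ψ : grpLang.BoundedFormula Empty (0 + a + b + 1 + 1), ψ.IsQF →
        (OneRel r ⊨ AEAE a b ψ ↔ FreeGroup (Fin 2) ⊨ AEAE a b ψ))) ∧
    (ElemChain → ∀ n a b : ℕ, 2 ≤ a → a + 2 ≤ n → b + 4 ≤ n →
      ∀ ψ : grpLang.BoundedFormula Empty (0 + a + b + 1 + 1), ψ.IsQF →
        (FreeGroup (Fin 2) ⊨ AEAE a b ψ →
          Tendsto (fun t => prob n t (AEAE a b ψ)) atTop (𝓝 1)) ∧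
        (¬ (FreeGroup (Fin 2) ⊨ AEAE a b ψ) →
          Tendsto (fun t => prob n t (AEAE a b ψ)) atTop (𝓝 0))) ∧
    (∀ n : ℕ, 4 ≤ n → AAS n (fun r => ∀ a b : ℕ, a + 2 ≤ n →
      ∀ ψ : grpLang.BoundedFormula Empty (0 + a + b + 1), ψ.IsQF →
        (∀ j : ℕ, 2 ≤ j → FreeGroup (Fin j) ⊨ AEA a b ψ) → OneRel r ⊨ AEA a b ψ)) ∧
    (∀ (a b m : ℕ) (ψ : grpLang.BoundedFormula Empty (0 + a + b + m)), ψ.IsQF →
      FreeGroup ℕ ⊨ EAE a b m ψ → ∃ N : ℕ, ∀ n, N ≤ n →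
        AAS n (fun r => OneRel r ⊨ EAE a b m ψ)) := by
  have h3 : ElemChain → ∀ n : ℕ, AAS n (fun r => ∀ a b : ℕ, 2 ≤ a → a + 2 ≤ n → b + 4 ≤ n →
      ∀ ψ : grpLang.BoundedFormula Empty (0 + a + b + 1 + 1), ψ.IsQF →
        (OneRel r ⊨ AEAE a b ψ ↔ FreeGroup (Fin 2) ⊨ AEAE a b ψ)) := by
    intro h n
    refine Pool.Agent.Helper32.OR.aas_mono (five_uniform n) ?_
    intro r hr a b ha hna hnb ψ hψ
    constructor
    · intro h1
      by_contra h2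
      have h4 := (Pool.Agent.Helper22.OR.not_AEAE a b ψ).mp h2
      have h5 := hr 2 a b 1 0 (by omega) (by omega) ψ.not hψ.not
        (Pool.Agent.Helper22.OR.chain_of_elem h 2 a b 1 0 le_rfl ψ.not h4)
      exact (Pool.Agent.Helper22.OR.not_AEAE a b ψ).mpr h5 h1
    · intro h1
      exact hr 0 0 a b 1 (by omega) (by omega) ψ hψ
        (Pool.Agent.Helper22.OR.chain_zero_of_elem h a b 1 ha ψ h1)
  refine ⟨five_uniform, ?_, h3, ?_, aea_uniform, eae_large⟩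
  · intro h n
    refine Pool.Agent.Helper32.OR.aas_mono (five_uniform n) ?_
    intro r hr a b c d hn ψ hψ hF
    exact hr 2 a b c d (by omega) (by omega) ψ hψ
      (Pool.Agent.Helper22.OR.chain_of_elem h 2 a b c d le_rfl ψ hF)
  · intro h n a b ha hna hnb ψ hψ
    constructor
    · intro hF
      exact Pool.Agent.Helper32.OR.aas_mono (h3 h n)
        (fun r hr => (hr a b ha hna hnb ψ hψ).mpr hF)
    · intro hF
      exact Pool.Agent.Helper32.OR.aas_not (Pool.Agent.Helper32.OR.aas_mono (h3 h n)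
        (fun r hr h1 => hF ((hr a b ha hna hnb ψ hψ).mp h1)))

end Pool.Agent.Helper22.Kept.FiveBlocks
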